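import Pool.Agent.H.MP_ebc7ea_an.B

set_option autoImplicit false

namespace Pool.Agent.Results.MP_ebc7ea_an.Fact

open Set Filter Topology

theorem result (X : Type) [NormedAddCommGroup X] [NormedSpace ℝ X] [CompleteSpace X]
    (e : ℕ → X) (f : ℕ → X →L[ℝ] ℝ)
    (bio : ∀ i j, f i (e j) = if i = j then 1 else 0)
    (basis : ∀ x, Tendsto (fun N => ∑ k ∈ Finset.range N, f k x • e k) atTop (𝓝 x))
    (eqn : ∀ x, {k | f k x ≠ 0}.Finite → IsLUB ({r | ∃ k, r = |f k x|} ∪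
      {r | ∃ (n : ℕ) (E : ℕ → Finset ℕ), (∀ i, i < n → ∀ k ∈ E i, n ≤ k + 1) ∧
        (∀ i j, i < j → j < n → ∀ k ∈ E i, ∀ l ∈ E j, k < l) ∧
        r = 1 / 2 * ∑ i ∈ Finset.range n, ‖∑ k ∈ E i, f k x • e k‖}) ‖x‖)
    (A : X →L[ℝ] X) (hA : ∃ δ : ℝ, 0 < δ ∧ ∀ k, δ ≤ |f k (A (e k))|) :
    ∃ R S : X →L[ℝ] X, S ∘L A ∘L R = ContinuousLinearMap.id ℝ X := by
  obtain ⟨δ, hδ, hA⟩ := hA
  refine H.MP_ebc7ea_an.Ts.main ⟨bio, basis, fun x hx => ?_⟩ A hδ hA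
  simpa only [H.MP_ebc7ea_an.Adm, and_assoc] using eqn x hx

end Pool.Agent.Results.MP_ebc7ea_an.Fact
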